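import Mathlib

set_option autoImplicit false

namespace Pool.Agent.Results.MP_6cf06e_an.IndexAtMostHalf

open MeasureTheory
open scoped Pointwise

section Defs

variable (𝕜 : Type*) [RCLike 𝕜] (X : Type*) [NormedAddCommGroup X] [NormedSpace 𝕜 X]

variable {𝕜 X} in
/-- The norm `sup {‖P x‖ : ‖x‖ = 1}` of the `k`-homogeneous polynomial `P x = A (x, …, x)`. -/
noncomputable def polyNorm {k : ℕ} (A : ContinuousMultilinearMap 𝕜 (fun _ : Fin k => X) X) : ℝ :=
  sSup {r | ∃ x : X, ‖x‖ = 1 ∧ r = ‖A fun _ => x‖}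

variable {𝕜 X} in
/-- The numerical radius `sup {|φ (P x)| : ‖x‖ = ‖φ‖ = φ x = 1}` of the `k`-homogeneous polynomial
`P x = A (x, …, x)`. -/
noncomputable def numRadius {k : ℕ} (A : ContinuousMultilinearMap 𝕜 (fun _ : Fin k => X) X) : ℝ :=
  sSup {r | ∃ (x : X) (φ : X →L[𝕜] 𝕜), ‖x‖ = 1 ∧ ‖φ‖ = 1 ∧ φ x = 1 ∧ r = ‖φ (A fun _ => x)‖}

/-- The `k`-th polynomial numerical index of `X`: the infimum of the numerical radii of the
`k`-homogeneous polynomials of norm one. -/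
noncomputable def polyIndex (k : ℕ) : ℝ :=
  sInf {v | ∃ A : ContinuousMultilinearMap 𝕜 (fun _ : Fin k => X) X,
    polyNorm A = 1 ∧ v = numRadius A}

end Defs

section General

variable {𝕜 : Type*} [RCLike 𝕜] {X : Type*} [NormedAddCommGroup X] [NormedSpace 𝕜 X]

theorem bdd_norm {k : ℕ} (A : ContinuousMultilinearMap 𝕜 (fun _ : Fin k => X) X) :
    BddAbove {r | ∃ x : X, ‖x‖ = 1 ∧ r = ‖A fun _ => x‖} := by
  refine ⟨‖A‖, ?_⟩
  rintro r ⟨x, hx, rfl⟩
  simpa [hx] using A.le_opNorm (fun _ => x)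

theorem numRadius_nonneg {k : ℕ} (A : ContinuousMultilinearMap 𝕜 (fun _ : Fin k => X) X) :
    0 ≤ numRadius A := by
  apply Real.sSup_nonneg
  rintro r ⟨x, φ, -, -, -, rfl⟩
  exact norm_nonneg _

theorem polyIndex_le {k : ℕ} {r : ℝ}
    (h : ∃ A : ContinuousMultilinearMap 𝕜 (fun _ : Fin k => X) X, polyNorm A = 1 ∧
      numRadius A ≤ r) : polyIndex 𝕜 X k ≤ r := by
  obtain ⟨A, hA, hr⟩ := h
  have hb : BddBelow {v | ∃ A : ContinuousMultilinearMap 𝕜 (fun _ : Fin k => X) X,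
      polyNorm A = 1 ∧ v = numRadius A} := by
    refine ⟨0, ?_⟩
    rintro r ⟨B, -, rfl⟩
    exact numRadius_nonneg B
  exact (csInf_le hb ⟨A, hA, rfl⟩).trans hr

theorem exists_poly {k : ℕ} (A : ContinuousMultilinearMap 𝕜 (fun _ : Fin k => X) X)
    {v N : ℝ} (hv : 0 ≤ v) (hN : 0 < N)
    (h : ∀ (x : X) (φ : X →L[𝕜] 𝕜), ‖x‖ = 1 → ‖φ‖ = 1 → φ x = 1 → ‖φ (A fun _ => x)‖ ≤ v)
    (x0 : X) (hx0 : ‖x0‖ = 1) (h0 : N ≤ ‖A fun _ => x0‖) :
    ∃ B : ContinuousMultilinearMap 𝕜 (fun _ : Fin k => X) X, polyNorm B = 1 ∧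
      numRadius B ≤ v / N := by
  set M := polyNorm A with hM
  have hNM : N ≤ M := h0.trans (le_csSup (bdd_norm A) ⟨x0, hx0, rfl⟩)
  have hMpos : 0 < M := hN.trans_le hNM
  set c : 𝕜 := ((M⁻¹ : ℝ) : 𝕜) with hc
  have hcn : ‖c‖ = M⁻¹ := by
    rw [hc, RCLike.norm_ofReal, abs_of_pos (inv_pos.2 hMpos)]
  have e1 : polyNorm (c • A) = 1 := by
    have hset : {r | ∃ x : X, ‖x‖ = 1 ∧ r = ‖(c • A) fun _ => x‖} =
        M⁻¹ • {r | ∃ x : X, ‖x‖ = 1 ∧ r = ‖A fun _ => x‖} := by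
      ext r
      simp only [Set.mem_ofPred_eq, Set.mem_smul_set, smul_eq_mul]
      constructor
      · rintro ⟨x, hx, rfl⟩
        exact ⟨_, ⟨x, hx, rfl⟩, by simp [norm_smul, hcn]⟩
      · rintro ⟨_, ⟨x, hx, rfl⟩, rfl⟩
        exact ⟨x, hx, by simp [norm_smul, hcn]⟩
    unfold polyNorm
    rw [hset, Real.sSup_smul_of_nonneg (inv_nonneg.2 hMpos.le)]
    change M⁻¹ • M = 1
    rw [smul_eq_mul, inv_mul_cancel₀ hMpos.ne']
  have e2 : numRadius (c • A) ≤ v / N := by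
    apply Real.sSup_le
    · rintro r ⟨x, φ, hx, hφ, hφx, rfl⟩
      have : φ ((c • A) fun _ => x) = c * φ (A fun _ => x) := by simp
      rw [this, norm_mul, hcn]
      have h1 := h x φ hx hφ hφx
      calc M⁻¹ * ‖φ (A fun _ => x)‖ ≤ M⁻¹ * v := by gcongr
        _ ≤ N⁻¹ * v := by gcongr
        _ = v / N := by ring
    · positivity
  exact ⟨c • A, e1, e2⟩

end General

section Cont

/-- the reflection `f ↦ f(1 - ·)` -/
noncomputable def refl : C(unitInterval, ℝ) → C(unitInterval, ℝ) :=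
  fun f => f.comp ⟨unitInterval.symm, unitInterval.continuous_symm⟩

/-- the bilinear map `2 f(1-t) g(1-t) - f(t) g(t)` -/
noncomputable def contA : ContinuousMultilinearMap ℝ (fun _ : Fin 2 => C(unitInterval, ℝ))
    C(unitInterval, ℝ) where
  toFun m := (2 : ℝ) • (refl (m 0) * refl (m 1)) - m 0 * m 1
  map_update_add' m i x y := by
    fin_cases i <;> ext t <;> simp [refl, Function.update] <;> ring
  map_update_smul' m i c x := by
    fin_cases i <;> ext t <;> simp [refl, Function.update] <;> ring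
  cont := by
    have h : Continuous refl := ContinuousMap.continuous_precomp _
    fun_prop

theorem contA_apply (f : C(unitInterval, ℝ)) (t : unitInterval) :
    (contA fun _ => f) t = 2 * f (unitInterval.symm t) ^ 2 - f t ^ 2 := by
  change ((2 : ℝ) • (refl f * refl f) - f * f) t = _
  simp [refl]
  ring

theorem cont_index : ∃ A : ContinuousMultilinearMap ℝ (fun _ : Fin 2 => C(unitInterval, ℝ))
    C(unitInterval, ℝ), polyNorm A = 1 ∧ numRadius A ≤ 1 / 2 := by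
  have key : ∀ f : C(unitInterval, ℝ), ‖f‖ = 1 → ∀ ε : ℝ, |ε| ≤ 1 / 4 →
      ‖f + ε • (contA fun _ => f)‖ ≤ 1 + |ε| := by
    intro f hf ε hε
    rw [ContinuousMap.norm_le _ (by positivity)]
    intro t
    have h1 : |f t| ≤ 1 := by simpa [hf] using f.norm_coe_le_norm t
    have h2 : |f (unitInterval.symm t)| ≤ 1 := by
      simpa [hf] using f.norm_coe_le_norm (unitInterval.symm t)
    rw [ContinuousMap.add_apply, ContinuousMap.smul_apply, contA_apply, smul_eq_mul,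
      Real.norm_eq_abs]
    have h3 : 0 ≤ f (unitInterval.symm t) ^ 2 ∧ f (unitInterval.symm t) ^ 2 ≤ 1 :=
      ⟨sq_nonneg _, by rw [← sq_abs]; nlinarith [abs_nonneg (f (unitInterval.symm t))]⟩
    generalize f (unitInterval.symm t) ^ 2 = q at h3
    generalize f t = p at h1
    obtain ⟨h4, h5⟩ := abs_le.1 h1
    rw [abs_le]
    rcases abs_cases ε with ⟨h6, h7⟩ | ⟨h6, h7⟩ <;> rw [h6] at hε ⊢ <;> constructor <;>
      nlinarith [mul_nonneg h3.1 (abs_nonneg ε), mul_nonneg (sub_nonneg.2 h3.2) (abs_nonneg ε),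
        sq_nonneg p, mul_nonneg (sub_nonneg.2 h5) (abs_nonneg ε),
        mul_nonneg (by linarith : (0:ℝ) ≤ 1 + p) (abs_nonneg ε)]
  refine exists_poly (v := 1) (N := 2) contA (by norm_num) (by norm_num) ?_
    (⟨fun t => (t : ℝ), continuous_subtype_val⟩ : C(unitInterval, ℝ)) ?_ ?_
  · intro f φ hf hφ hφf
    have h1 : ∀ ε : ℝ, |ε| ≤ 1 / 4 → 1 + ε * φ (contA fun _ => f) ≤ 1 + |ε| := by
      intro ε hε
      have h := φ.le_opNorm (f + ε • (contA fun _ => f))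
      rw [hφ, one_mul] at h
      have h' := (le_abs_self _).trans (h.trans (key f hf ε hε))
      simpa [hφf] using h'
    have h2 := h1 (1 / 4) (by norm_num)
    have h3 := h1 (-(1 / 4)) (by norm_num)
    rw [abs_of_pos (by norm_num)] at h2
    rw [abs_neg, abs_of_pos (by norm_num : (0:ℝ) < 1 / 4)] at h3
    rw [Real.norm_eq_abs, abs_le]
    constructor <;> linarith
  · apply le_antisymm
    · rw [ContinuousMap.norm_le _ (by norm_num)]
      intro t
      simpa [abs_of_nonneg t.2.1] using t.2.2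
    · have := ContinuousMap.norm_coe_le_norm
        (⟨fun t => (t : ℝ), continuous_subtype_val⟩ : C(unitInterval, ℝ)) 1
      simpa using this
  · have := ContinuousMap.norm_coe_le_norm (contA fun _ =>
        (⟨fun t => (t : ℝ), continuous_subtype_val⟩ : C(unitInterval, ℝ))) 0
    rw [contA_apply] at this
    simpa using this

end Cont

section L1

theorem real_ineq {s t : ℝ} (hs : 0 ≤ s) (ht : 0 ≤ t) (h : s + t = 1) :
    s * |s / 3 - t| + t * |s - t / 3| ≤ 1 / 3 := by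
  obtain rfl : t = 1 - s := by linarith
  rcases abs_cases (s / 3 - (1 - s)) with ⟨h1, h2⟩ | ⟨h1, h2⟩ <;>
    rcases abs_cases (s - (1 - s) / 3) with ⟨h3, h4⟩ | ⟨h3, h4⟩ <;> rw [h1, h3] <;>
    nlinarith [sq_nonneg (s - (1 - s)), mul_nonneg hs ht]

variable {𝕜 : Type*} [RCLike 𝕜] {X : Type*} [NormedAddCommGroup X] [NormedSpace 𝕜 X]

/-- the bilinear map `(a(y)/3 + b(y)) PA x - (a(y) + b(y)/3) PB x` -/
noncomputable def bil (PA PB : X →L[𝕜] X) (a b : X →L[𝕜] 𝕜) :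
    ContinuousMultilinearMap 𝕜 (fun _ : Fin 2 => X) X where
  toFun m := ((3 : 𝕜)⁻¹ * a (m 1) + b (m 1)) • PA (m 0) - (a (m 1) + (3 : 𝕜)⁻¹ * b (m 1)) • PB (m 0)
  map_update_add' m i x y := by
    fin_cases i <;> simp [Function.update] <;> module
  map_update_smul' m i c x := by
    fin_cases i <;> simp [Function.update] <;> module
  cont := by fun_prop

theorem bil_apply (PA PB : X →L[𝕜] X) (a b : X →L[𝕜] 𝕜) (x : X) :
    (bil PA PB a b fun _ => x) =
      ((3 : 𝕜)⁻¹ * a x + b x) • PA x - (a x + (3 : 𝕜)⁻¹ * b x) • PB x := rfl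

theorem eq_of_norm_le_re {z : 𝕜} {s : ℝ} (h1 : ‖z‖ ≤ s) (h2 : s ≤ RCLike.re z) : z = (s : 𝕜) := by
  have h3 : z = ‖z‖ := RCLike.norm_le_re_iff_eq_norm.1 (h1.trans h2)
  have h4 : ‖z‖ = s := le_antisymm h1 (h2.trans (RCLike.re_le_norm z))
  rw [h3, h4]

theorem abstract_index (PA PB : X →L[𝕜] X) (a b : X →L[𝕜] 𝕜)
    (hnorm : ∀ x, ‖PA x‖ + ‖PB x‖ = ‖x‖) (hsum : ∀ x, PA x + PB x = x)
    (hAA : ∀ x, PA (PA x) = PA x) (hAB : ∀ x, PA (PB x) = 0)
    (hBA : ∀ x, PB (PA x) = 0) (hBB : ∀ x, PB (PB x) = PB x)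
    (ha : ∀ x, ‖a x‖ ≤ ‖PA x‖) (hb : ∀ x, ‖b x‖ ≤ ‖PB x‖)
    (x0 : X) (h1 : ‖PA x0‖ = 1 / 2) (h2 : ‖PB x0‖ = 1 / 2)
    (h3 : a x0 = (2 : 𝕜)⁻¹) (h4 : b x0 = (2 : 𝕜)⁻¹) :
    ∃ A : ContinuousMultilinearMap 𝕜 (fun _ : Fin 2 => X) X, polyNorm A = 1 ∧
      numRadius A ≤ 1 / 2 := by
  rw [show (1 / 2 : ℝ) = (1 / 3) / (2 / 3) by norm_num]
  refine exists_poly (v := 1 / 3) (N := 2 / 3) (bil PA PB a b) (by norm_num) (by norm_num) ?_
    x0 ?_ ?_
  · intro x φ hx hφ hφx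
    set s := ‖PA x‖ with hs
    set t := ‖PB x‖ with ht
    have hst : s + t = 1 := by rw [hs, ht, hnorm, hx]
    have g1 : ‖φ (PA x)‖ ≤ s := by simpa [hφ] using φ.le_opNorm (PA x)
    have g2 : ‖φ (PB x)‖ ≤ t := by simpa [hφ] using φ.le_opNorm (PB x)
    have g3 : RCLike.re (φ (PA x)) + RCLike.re (φ (PB x)) = 1 := by
      rw [← map_add, ← map_add, hsum, hφx]; simp
    have g4 := (RCLike.re_le_norm (φ (PA x))).trans g1
    have g5 := (RCLike.re_le_norm (φ (PB x))).trans g2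
    have g6 : φ (PA x) = (s : 𝕜) := eq_of_norm_le_re g1 (by linarith)
    have g7 : φ (PB x) = (t : 𝕜) := eq_of_norm_le_re g2 (by linarith)
    have g8 : φ (bil PA PB a b fun _ => x) =
        a x * ((s / 3 - t : ℝ) : 𝕜) + b x * ((s - t / 3 : ℝ) : 𝕜) := by
      rw [bil_apply, map_sub, map_smul, map_smul, g6, g7]
      push_cast
      simp only [smul_eq_mul]
      ring
    rw [g8]
    calc ‖a x * ((s / 3 - t : ℝ) : 𝕜) + b x * ((s - t / 3 : ℝ) : 𝕜)‖
        ≤ ‖a x‖ * |s / 3 - t| + ‖b x‖ * |s - t / 3| := by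
          refine (norm_add_le _ _).trans ?_
          rw [norm_mul, norm_mul, RCLike.norm_ofReal, RCLike.norm_ofReal]
      _ ≤ s * |s / 3 - t| + t * |s - t / 3| := by
          gcongr
          · exact ha x
          · exact hb x
      _ ≤ 1 / 3 := real_ineq (norm_nonneg _) (norm_nonneg _) hst
  · rw [← hnorm, h1, h2]; norm_num
  · rw [bil_apply, ← hnorm, h3, h4]
    have e1 : (3 : 𝕜)⁻¹ * 2⁻¹ + 2⁻¹ = ((2 / 3 : ℝ) : 𝕜) := by push_cast; norm_num
    have e2 : (2 : 𝕜)⁻¹ + 3⁻¹ * 2⁻¹ = ((2 / 3 : ℝ) : 𝕜) := by push_cast; norm_num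
    rw [e1, e2]
    simp only [map_sub, map_smul, hAA, hAB, hBA, hBB, smul_zero, sub_zero, zero_sub, norm_neg,
      norm_smul, h1, h2, RCLike.norm_ofReal]
    rw [abs_of_pos (by norm_num)]
    norm_num

end L1

section Lp

variable (𝕜 : Type*) [RCLike 𝕜]

/-- Lebesgue measure on `[0,1]` -/
noncomputable abbrev mu : Measure ℝ := volume.restrict (Set.Icc (0 : ℝ) 1)

variable {𝕜} in
theorem norm_eq (f : Lp 𝕜 1 mu) : ‖f‖ = ∫ t, ‖f t‖ ∂mu := L1.norm_eq_integral_norm f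

variable {𝕜} in
theorem ind_norm_le (S : Set ℝ) (hS : MeasurableSet S) (f : Lp 𝕜 1 mu) :
    ‖((Lp.memLp f).indicator hS).toLp (S.indicator f)‖ ≤ 1 * ‖f‖ := by
  rw [one_mul, Lp.norm_toLp, Lp.norm_def]
  exact ENNReal.toReal_mono (Lp.eLpNorm_ne_top f) (eLpNorm_indicator_le _)

/-- multiplication by the indicator function of a set -/
noncomputable def indLin (S : Set ℝ) (hS : MeasurableSet S) : Lp 𝕜 1 mu →ₗ[𝕜] Lp 𝕜 1 mu where
  toFun f := ((Lp.memLp f).indicator hS).toLp (S.indicator f)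
  map_add' f g := by
    rw [← MemLp.toLp_add]
    apply MemLp.toLp_congr
    filter_upwards [Lp.coeFn_add f g] with t h
    by_cases ht : t ∈ S
    · rw [Set.indicator_of_mem ht, Pi.add_apply, Set.indicator_of_mem ht,
        Set.indicator_of_mem ht, h, Pi.add_apply]
    · rw [Set.indicator_of_notMem ht, Pi.add_apply, Set.indicator_of_notMem ht,
        Set.indicator_of_notMem ht, add_zero]
  map_smul' c f := by
    rw [RingHom.id_apply, ← MemLp.toLp_const_smul]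
    apply MemLp.toLp_congr
    filter_upwards [Lp.coeFn_smul c f] with t h
    by_cases ht : t ∈ S
    · rw [Set.indicator_of_mem ht, Pi.smul_apply, Set.indicator_of_mem ht, h, Pi.smul_apply]
    · rw [Set.indicator_of_notMem ht, Pi.smul_apply, Set.indicator_of_notMem ht, smul_zero]

/-- multiplication by the indicator function of a set -/
noncomputable def ind (S : Set ℝ) (hS : MeasurableSet S) : Lp 𝕜 1 mu →L[𝕜] Lp 𝕜 1 mu :=
  LinearMap.mkContinuous (indLin 𝕜 S hS) 1 (ind_norm_le S hS)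

variable {𝕜} in
theorem ind_apply (S : Set ℝ) (hS : MeasurableSet S) (f : Lp 𝕜 1 mu) :
    ind 𝕜 S hS f = ((Lp.memLp f).indicator hS).toLp (S.indicator f) := rfl

variable {𝕜} in
theorem ind_ae (S : Set ℝ) (hS : MeasurableSet S) (f : Lp 𝕜 1 mu) :
    ind 𝕜 S hS f =ᵐ[mu] S.indicator f := by
  rw [ind_apply]
  exact MemLp.coeFn_toLp _

variable {𝕜} in
theorem norm_ind (S : Set ℝ) (hS : MeasurableSet S) (f : Lp 𝕜 1 mu) :
    ‖ind 𝕜 S hS f‖ = ∫ t in S, ‖f t‖ ∂mu := by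
  rw [norm_eq, ← integral_indicator hS]
  apply integral_congr_ae
  filter_upwards [ind_ae S hS f] with t h
  rw [h]
  by_cases ht : t ∈ S <;> simp [ht]

variable {𝕜} in
theorem integral_ind (S : Set ℝ) (hS : MeasurableSet S) (f : Lp 𝕜 1 mu) :
    L1.integralCLM' 𝕜 (ind 𝕜 S hS f) = ∫ t in S, f t ∂mu := by
  have h : L1.integralCLM' 𝕜 (ind 𝕜 S hS f) = ∫ t, (ind 𝕜 S hS f) t ∂mu := by
    rw [← L1.integral_eq_integral, L1.integral_eq' 𝕜]
  rw [h, ← integral_indicator hS]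
  exact integral_congr_ae (ind_ae S hS f)

theorem lp_index : ∃ A : ContinuousMultilinearMap 𝕜 (fun _ : Fin 2 => Lp 𝕜 1 mu) (Lp 𝕜 1 mu),
    polyNorm A = 1 ∧ numRadius A ≤ 1 / 2 := by
  have hS : MeasurableSet (Set.Iic (1 / 2 : ℝ)) := measurableSet_Iic
  have m1 : mu.real (Set.Iic (1 / 2 : ℝ)) = 1 / 2 := by
    have : Set.Iic (1 / 2 : ℝ) ∩ Set.Icc 0 1 = Set.Icc 0 (1 / 2) := by
      ext t; simp only [Set.mem_inter_iff, Set.mem_Iic, Set.mem_Icc]; constructor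
      · rintro ⟨h1, h2, h3⟩; exact ⟨h2, h1⟩
      · rintro ⟨h1, h2⟩; exact ⟨h2, h1, by linarith⟩
    rw [measureReal_restrict_apply hS, this]
    simp
  have m2 : mu.real (Set.Iic (1 / 2 : ℝ))ᶜ = 1 / 2 := by
    have : (Set.Iic (1 / 2 : ℝ))ᶜ ∩ Set.Icc 0 1 = Set.Ioc (1 / 2) 1 := by
      ext t
      simp only [Set.mem_inter_iff, Set.mem_compl_iff, Set.mem_Iic, Set.mem_Icc, not_le,
        Set.mem_Ioc]
      constructor
      · rintro ⟨h1, h2, h3⟩; exact ⟨h1, h3⟩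
      · rintro ⟨h1, h2⟩; exact ⟨h1, by linarith, h2⟩
    rw [measureReal_restrict_apply hS.compl, this]
    simp
    norm_num
  set x0 : Lp 𝕜 1 mu := (memLp_const (1 : 𝕜)).toLp _ with hx0
  have hc : x0 =ᵐ[mu] fun _ => (1 : 𝕜) := MemLp.coeFn_toLp _
  have n1 : ∀ (S : Set ℝ), ∫ t in S, ‖x0 t‖ ∂mu = mu.real S := by
    intro S
    have : ∫ t in S, ‖x0 t‖ ∂mu = ∫ t in S, (1 : ℝ) ∂mu := by
      apply integral_congr_ae
      apply ae_restrict_of_ae
      filter_upwards [hc] with t ht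
      rw [ht]; simp
    rw [this]; simp
  have n2 : ∀ (S : Set ℝ), ∫ t in S, x0 t ∂mu = ((mu.real S : ℝ) : 𝕜) := by
    intro S
    have : ∫ t in S, x0 t ∂mu = ∫ t in S, (1 : 𝕜) ∂mu := by
      apply integral_congr_ae
      apply ae_restrict_of_ae
      filter_upwards [hc] with t ht
      rw [ht]
    rw [this]; simp [RCLike.real_smul_eq_coe_mul]
  have hint : ∀ f : Lp 𝕜 1 mu, Integrable (fun t => ‖f t‖) mu := fun f =>
    (memLp_one_iff_integrable.1 (Lp.memLp f)).norm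
  refine abstract_index (ind 𝕜 _ hS) (ind 𝕜 _ hS.compl)
    ((L1.integralCLM' 𝕜).comp (ind 𝕜 _ hS)) ((L1.integralCLM' 𝕜).comp (ind 𝕜 _ hS.compl))
    ?_ ?_ ?_ ?_ ?_ ?_ ?_ ?_ x0 ?_ ?_ ?_ ?_
  · intro f
    rw [norm_ind, norm_ind, norm_eq]
    exact integral_add_compl hS (hint f)
  · intro f
    apply Lp.ext
    filter_upwards [Lp.coeFn_add (ind 𝕜 _ hS f) (ind 𝕜 _ hS.compl f), ind_ae _ hS f,
      ind_ae _ hS.compl f] with t h1 h2 h3
    rw [h1, Pi.add_apply, h2, h3]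
    exact Set.indicator_self_add_compl_apply _ _ _
  · intro f
    apply Lp.ext
    filter_upwards [ind_ae _ hS (ind 𝕜 _ hS f), ind_ae _ hS f] with t h1 h2
    rw [h1, h2]
    by_cases ht : t ∈ Set.Iic (1 / 2 : ℝ)
    · rw [Set.indicator_of_mem ht, h2]
    · rw [Set.indicator_of_notMem ht, Set.indicator_of_notMem ht]
  · intro f
    apply Lp.ext
    filter_upwards [ind_ae _ hS (ind 𝕜 _ hS.compl f), ind_ae _ hS.compl f,
      Lp.coeFn_zero 𝕜 1 mu] with t h1 h2 h3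
    rw [h1, h3]
    by_cases ht : t ∈ Set.Iic (1 / 2 : ℝ)
    · rw [Set.indicator_of_mem ht, h2, Set.indicator_of_notMem (by simpa using ht)]; rfl
    · rw [Set.indicator_of_notMem ht]; rfl
  · intro f
    apply Lp.ext
    filter_upwards [ind_ae _ hS.compl (ind 𝕜 _ hS f), ind_ae _ hS f,
      Lp.coeFn_zero 𝕜 1 mu] with t h1 h2 h3
    rw [h1, h3]
    by_cases ht : t ∈ Set.Iic (1 / 2 : ℝ)
    · rw [Set.indicator_of_notMem (by simpa using ht)]; rfl
    · rw [Set.indicator_of_mem (by simpa using ht), h2, Set.indicator_of_notMem ht]; rfl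
  · intro f
    apply Lp.ext
    filter_upwards [ind_ae _ hS.compl (ind 𝕜 _ hS.compl f), ind_ae _ hS.compl f] with t h1 h2
    rw [h1, h2]
    by_cases ht : t ∈ (Set.Iic (1 / 2 : ℝ))ᶜ
    · rw [Set.indicator_of_mem ht, h2]
    · rw [Set.indicator_of_notMem ht, Set.indicator_of_notMem ht]
  · intro f
    rw [ContinuousLinearMap.comp_apply, ← L1.integral_eq' 𝕜]
    exact L1.norm_integral_le _
  · intro f
    rw [ContinuousLinearMap.comp_apply, ← L1.integral_eq' 𝕜]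
    exact L1.norm_integral_le _
  · rw [norm_ind, n1, m1]
  · rw [norm_ind, n1, m2]
  · rw [ContinuousLinearMap.comp_apply, integral_ind, n2, m1, one_div, RCLike.ofReal_inv, RCLike.ofReal_ofNat]
  · rw [ContinuousLinearMap.comp_apply, integral_ind, n2, m2, one_div, RCLike.ofReal_inv, RCLike.ofReal_ofNat]

end Lp

/-- The second polynomial numerical index of the real space `C[0,1]`, of the real space `L₁[0,1]`
and of the complex space `L₁[0,1]` is at most `1/2`; in each of the three spaces some 2-homogeneous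
polynomial of norm one has numerical radius at most `1/2`. -/
theorem result :
    (polyIndex ℝ C(unitInterval, ℝ) 2 ≤ 1 / 2 ∧
      ∃ A : ContinuousMultilinearMap ℝ (fun _ : Fin 2 => C(unitInterval, ℝ)) C(unitInterval, ℝ),
        polyNorm A = 1 ∧ numRadius A ≤ 1 / 2) ∧
    (polyIndex ℝ (Lp ℝ 1 (volume.restrict (Set.Icc (0 : ℝ) 1))) 2 ≤ 1 / 2 ∧
      ∃ A : ContinuousMultilinearMap ℝ
          (fun _ : Fin 2 => Lp ℝ 1 (volume.restrict (Set.Icc (0 : ℝ) 1)))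
          (Lp ℝ 1 (volume.restrict (Set.Icc (0 : ℝ) 1))),
        polyNorm A = 1 ∧ numRadius A ≤ 1 / 2) ∧
    (polyIndex ℂ (Lp ℂ 1 (volume.restrict (Set.Icc (0 : ℝ) 1))) 2 ≤ 1 / 2 ∧
      ∃ A : ContinuousMultilinearMap ℂ
          (fun _ : Fin 2 => Lp ℂ 1 (volume.restrict (Set.Icc (0 : ℝ) 1)))
          (Lp ℂ 1 (volume.restrict (Set.Icc (0 : ℝ) 1))),
        polyNorm A = 1 ∧ numRadius A ≤ 1 / 2) :=
  ⟨⟨polyIndex_le cont_index, cont_index⟩, ⟨polyIndex_le (lp_index ℝ), lp_index ℝ⟩,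
    ⟨polyIndex_le (lp_index ℂ), lp_index ℂ⟩⟩

end Pool.Agent.Results.MP_6cf06e_an.IndexAtMostHalf
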